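import Mathlib
import Pool.Agent.H28.Split
import Pool.Agent.H28.HOne

set_option autoImplicit false

namespace Pool.Agent.Results.MP_e9d015_al.FreeFactors

open Pool.Agent.H28

universe u v

/-- **`B_n(p)` for conjugates lying in different free factors of a pro-`p` closed subgroup.** -/
theorem result {F : Type u} [Group F] [IsFreeGroup F] (n p : ℕ) (hp : p.Prime)
    (S : Subgroup F)
    (hS : Function.Injective (LinearMap.rTensor (ZMod p)
      (AddMonoidHom.toIntLinearMap (MonoidHom.toAdditive (Abelianization.map S.subtype)))))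
    {β : Type v} (y : β → F) (hy : Function.Injective (FreeGroup.lift y))
    (hclosed : ProPClosed p (Subgroup.closure (Set.range y))) (lam : β → Fin n)
    (a : S) (g : Fin n → S) (c : Fin n → F)
    (hX : ∀ i, c i * (g i : F) * (c i)⁻¹ ∈ Subgroup.closure (y '' {b | lam b = i}))
    (ha : (a : F) = (List.ofFn (fun i => c i * (g i : F) * (c i)⁻¹)).prod) :
    (∀ i, c i * (g i : F) * (c i)⁻¹ ∈ S) ∧ Dependent a g := by
  have hext := extP_of_injective hp S hS
  -- it suffices to prove that the conjugates lie in `S`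
  suffices h1 : ∀ i, c i * (g i : F) * (c i)⁻¹ ∈ S by
    refine ⟨h1, ?_⟩
    have h2 : ∀ i, ∃ s : S, (⟨_, h1 i⟩ : S) = s * g i * s⁻¹ := fun i =>
      conj_case hp S hext ⟨_, h1 i⟩ (g i) (c i) rfl
    choose s hs using h2
    refine ⟨s, ?_⟩
    apply Subtype.ext
    rw [ha]
    show _ = S.subtype _
    rw [map_list_prod, List.map_ofFn]
    congr 2
    funext i
    exact congrArg Subtype.val (hs i)
  let E : Subgroup F := Subgroup.closure (Set.range y)
  have hrange : (FreeGroup.lift y).range = E := FreeGroup.range_lift_eq_closure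
  let e : FreeGroup β ≃* E :=
    (MonoidHom.ofInjective hy).trans (MulEquiv.subgroupCongr hrange)
  let bE : FreeGroupBasis β E := FreeGroupBasis.ofRepr e.symm
  have hbE : ∀ k, ((bE k : E) : F) = y k := by
    intro k
    show ((e (FreeGroup.of k) : E) : F) = y k
    show FreeGroup.lift y (FreeGroup.of k) = y k
    simp
  have hsub : ∀ i, Subgroup.closure (y '' {b | lam b = i}) =
      (Subgroup.closure (bE '' {b | lam b = i})).map E.subtype := by
    intro i
    rw [MonoidHom.map_closure, ← Set.image_comp]
    congr 1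
    apply Set.image_congr
    intro k _
    exact (hbE k).symm
  have hXE : ∀ i, ∃ x : E, (x : F) = c i * (g i : F) * (c i)⁻¹ ∧
      x ∈ Subgroup.closure (bE '' {b | lam b = i}) := by
    intro i
    have h := hX i
    rw [hsub] at h
    obtain ⟨x, hx, hxe⟩ := h
    exact ⟨x, hxe, hx⟩
  choose X hX1 hX2 using hXE
  let b : FreeGroupBasis (IsFreeGroup.Generators F) F := IsFreeGroup.basis F
  let o : F ⧸ S := ((1 : F) : F ⧸ S)
  have hstab : MulAction.stabilizer F o = S := MulAction.stabilizer_quotient S
  have htop : Inj (ZMod p) b (F ⧸ S) (⊤ : Subgroup F) := by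
    apply inj_top b o
    intro ψ
    obtain ⟨Ψ, hΨ⟩ := hext (ψ.comp (Subgroup.inclusion (le_of_eq hstab.symm)))
    refine ⟨Ψ, fun s => ?_⟩
    have hs : (s : F) ∈ S := (le_of_eq hstab) s.2
    exact hΨ ⟨s, hs⟩
  have hE : Inj (ZMod p) b (F ⧸ S) E := inj_of_closed hp b htop E hclosed
  have hprod : (((List.ofFn X).prod : E) : F) = (a : F) := by
    rw [ha]
    show E.subtype _ = _
    rw [map_list_prod, List.map_ofFn]
    congr 2
    funext i
    exact hX1 i
  have hfix := split_fix hp b E hE bE lam X hX2 (fun i => ((c i : F) : F ⧸ S)) (by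
      intro i
      show ((X i : F) * c i : F) = ((c i : F) : F ⧸ S)
      rw [hX1, QuotientGroup.eq]
      have h2 : (c i * (g i : F) * (c i)⁻¹ * c i)⁻¹ * c i = (g i : F)⁻¹ := by group
      rw [h2]
      exact S.inv_mem (g i).2) o (by
      rw [hprod]
      have h1 : (a : F) ∈ MulAction.stabilizer F o := (le_of_eq hstab.symm) a.2
      exact h1)
  intro i
  have h2 : (X i : F) ∈ MulAction.stabilizer F o := hfix i
  rw [hstab, hX1] at h2
  exact h2

end Pool.Agent.Results.MP_e9d015_al.FreeFactors
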