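import Mathlib
import Pool.Agent.H28.Split
import Pool.Agent.H28.HOne

set_option autoImplicit false
open scoped TensorProduct

namespace Pool.Agent.Results.MP_e9d015_al.ReduceRank

open Pool.Agent.H28

/-- The map `H_1(S; Z_p) → H_1(F; Z_p)` induced by the inclusion of a subgroup `S` of `F`, exactly
as in the posed statement. -/
noncomputable def h1 (p : ℕ) {F : Type} [Group F] (S : Subgroup F) :
    Additive (Abelianization S) ⊗[ℤ] ZMod p →ₗ[ℤ] Additive (Abelianization F) ⊗[ℤ] ZMod p :=
  LinearMap.rTensor (ZMod p)
    (AddMonoidHom.toIntLinearMap (MonoidHom.toAdditive (Abelianization.map S.subtype)))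

/-- Stallings' assertion `B_n(p)`, as posed. -/
def StallingsB (n p : ℕ) : Prop :=
  ∀ (k : ℕ) (S : Subgroup (FreeGroup (Fin k))), Function.Bijective (h1 p S) →
    ∀ (a : S) (g : Fin n → S),
      Dependent (a : FreeGroup (Fin k)) (fun i => (g i : FreeGroup (Fin k))) → Dependent a g

/-- `B_n(p)` only for free groups `F` of rank between `2` and `n`, and only for elements
`g 0, ..., g (n - 1)` whose classes generate `H_1(F; Z_p)`: every homomorphism from `F` to the
group of order `p` that kills all of them is trivial. -/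
def RestrictedB (n p : ℕ) : Prop :=
  ∀ (k : ℕ), 2 ≤ k → k ≤ n → ∀ (S : Subgroup (FreeGroup (Fin k))), Function.Bijective (h1 p S) →
    ∀ (a : S) (g : Fin n → S),
      (∀ ψ : FreeGroup (Fin k) →* Multiplicative (ZMod p),
        (∀ i, ψ (g i : FreeGroup (Fin k)) = 1) → ψ = 1) →
      Dependent (a : FreeGroup (Fin k)) (fun i => (g i : FreeGroup (Fin k))) → Dependent a g

/-- `B_n(p)` for all free groups `F`, of any rank, and all subgroups `S` for which
`H_1(S; Z_p) → H_1(F; Z_p)` is injective. -/
def StrongB (n p : ℕ) : Prop :=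
  ∀ (F : Type) [Group F] [IsFreeGroup F] (S : Subgroup F), Function.Injective (h1 p S) →
    ∀ (a : S) (g : Fin n → S), Dependent (a : F) (fun i => (g i : F)) → Dependent a g

/-- **Reduction of Stallings' Conjecture `B_n(p)` to rank at most `n`.** -/
theorem result (n p : ℕ) (hp : p.Prime) :
    List.TFAE [StallingsB n p, RestrictedB n p, StrongB n p] := by
  tfae_have 1 → 2 := by
    intro h k _ _ S hS a g _ hdep
    exact h k S hS a g hdep
  tfae_have 2 → 3 := by
    intro h F _ _ S hS a g hdep
    refine core hp ?_ S (extP_of_injective hp S hS) a g hdep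
    intro k hk S' hext huniq a' g' hgen hdep'
    by_cases h2 : 2 ≤ k
    · exact h k h2 hk S' ⟨injective_of_extP hp S' hext, surjective_of_uniqP hp S' huniq⟩
        a' g' hgen hdep'
    · exact dependent_of_comm (freeGroup_comm (by omega)) S' a' g' hdep'
  tfae_have 3 → 1 := by
    intro h k S hS a g hdep
    exact h (FreeGroup (Fin k)) S hS.1 a g hdep
  tfae_finish

end Pool.Agent.Results.MP_e9d015_al.ReduceRank
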